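import Pool.Agent.W483.FB.Stm

/-!
# FB-5: joint eigenbasis of the operators `E (a j) F (a j)`
-/

open Finset Matrix

namespace Pool.Agent.W800.FB

open Pool.Agent.W483.FB

lemma anti {R : Type*} [Ring R] {x y : R} (h : x * y + y * x = 0) : x * y = -(y * x) :=
  eq_neg_of_add_eq_zero_left h

theorem t_basis1 (hj : S_joint) (ha : S_alg) : S_basis1 := by
  intro n c a hO
  have hEE1 : ∀ j, c.E (a j) * c.E (a j) = 1 := by
    intro j
    have h := (ha n c (a j) (a j)).1
    rw [hO j j, if_pos rfl, ← two_smul ℝ, mul_one] at h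
    exact smul_right_injective _ (two_ne_zero) h
  have hFF1 : ∀ j, c.F (a j) * c.F (a j) = -1 := by
    intro j
    have h := (ha n c (a j) (a j)).2.1
    rw [hO j j, if_pos rfl, ← two_smul ℝ, mul_one, neg_smul, ← smul_neg] at h
    exact smul_right_injective _ (two_ne_zero) h
  have hEE : ∀ j k, j ≠ k → c.E (a j) * c.E (a k) = -(c.E (a k) * c.E (a j)) := by
    intro j k hjk
    refine anti ?_
    rw [(ha n c (a j) (a k)).1, hO j k, if_neg hjk, mul_zero, zero_smul]
  have hFF : ∀ j k, j ≠ k → c.F (a j) * c.F (a k) = -(c.F (a k) * c.F (a j)) := by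
    intro j k hjk
    refine anti ?_
    rw [(ha n c (a j) (a k)).2.1, hO j k, if_neg hjk, mul_zero, neg_zero, zero_smul]
  have hEF : ∀ j k, c.E (a j) * c.F (a k) = -(c.F (a k) * c.E (a j)) := fun j k =>
    anti (ha n c (a j) (a k)).2.2.1
  have hFE : ∀ j k, c.F (a j) * c.E (a k) = -(c.E (a k) * c.F (a j)) := by
    intro j k
    rw [hEF k j, neg_neg]
  refine hj n (fun j => c.E (a j) * c.F (a j)) (fun j => c.E (a j)) ?_ ?_ ?_ ?_ ?_ ?_
  · intro j
    show (c.E (a j) * c.F (a j))ᵀ = _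
    rw [transpose_mul, (ha n c (a j) (a j)).2.2.2.1, (ha n c (a j) (a j)).2.2.2.2, hEF j j,
      neg_mul]
  · intro j
    show c.E (a j) * c.F (a j) * (c.E (a j) * c.F (a j)) = 1
    calc c.E (a j) * c.F (a j) * (c.E (a j) * c.F (a j))
        = c.E (a j) * (c.F (a j) * c.E (a j)) * c.F (a j) := by noncomm_ring
      _ = c.E (a j) * (-(c.E (a j) * c.F (a j))) * c.F (a j) := by rw [hFE j j]
      _ = -((c.E (a j) * c.E (a j)) * (c.F (a j) * c.F (a j))) := by noncomm_ring
      _ = 1 := by rw [hEE1, hFF1]; simp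
  · intro i j
    show c.E (a i) * c.F (a i) * (c.E (a j) * c.F (a j)) =
      c.E (a j) * c.F (a j) * (c.E (a i) * c.F (a i))
    by_cases hij : i = j
    · rw [hij]
    calc c.E (a i) * c.F (a i) * (c.E (a j) * c.F (a j))
        = c.E (a i) * (c.F (a i) * c.E (a j)) * c.F (a j) := by noncomm_ring
      _ = c.E (a i) * (-(c.E (a j) * c.F (a i))) * c.F (a j) := by rw [hFE i j]
      _ = -((c.E (a i) * c.E (a j)) * (c.F (a i) * c.F (a j))) := by noncomm_ring
      _ = -((-(c.E (a j) * c.E (a i))) * (-(c.F (a j) * c.F (a i)))) := by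
          rw [hEE i j hij, hFF i j hij]
      _ = -(c.E (a j) * (c.E (a i) * c.F (a j)) * c.F (a i)) := by noncomm_ring
      _ = -(c.E (a j) * (-(c.F (a j) * c.E (a i))) * c.F (a i)) := by rw [hEF i j]
      _ = c.E (a j) * c.F (a j) * (c.E (a i) * c.F (a i)) := by noncomm_ring
  · intro j
    show (c.E (a j))ᵀ * c.E (a j) = 1
    rw [(ha n c (a j) (a j)).2.2.2.1, hEE1]
  · intro j
    show c.E (a j) * (c.E (a j) * c.F (a j)) = -(c.E (a j) * c.F (a j) * c.E (a j))
    calc c.E (a j) * (c.E (a j) * c.F (a j)) = c.E (a j) * (-(c.F (a j) * c.E (a j))) := by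
          rw [← hEF j j]
      _ = -(c.E (a j) * c.F (a j) * c.E (a j)) := by noncomm_ring
  · intro j k hjk
    show c.E (a j) * (c.E (a k) * c.F (a k)) = c.E (a k) * c.F (a k) * c.E (a j)
    calc c.E (a j) * (c.E (a k) * c.F (a k)) = (c.E (a j) * c.E (a k)) * c.F (a k) := by
          noncomm_ring
      _ = (-(c.E (a k) * c.E (a j))) * c.F (a k) := by rw [hEE j k hjk]
      _ = -(c.E (a k) * (c.E (a j) * c.F (a k))) := by noncomm_ring
      _ = -(c.E (a k) * (-(c.F (a k) * c.E (a j)))) := by rw [hEF j k]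
      _ = c.E (a k) * c.F (a k) * c.E (a j) := by noncomm_ring

end Pool.Agent.W800.FB
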