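import Pool.Agent.W483.FB.Stm

/-!
# FB-9: relations between the generators and the dephased state
-/

open Finset Matrix

namespace Pool.Agent.W800.FB.Deph

open Pool.Agent.W483.FB

lemma F_smul {n : ℕ} (c : Cliff n) (r : ℝ) (v : Fin n → ℝ) : c.F (r • v) = r • c.F v := by
  unfold Cliff.F
  rw [Finset.smul_sum]
  refine Finset.sum_congr rfl fun i _ => ?_
  rw [smul_smul]
  simp

lemma E_smul {n : ℕ} (c : Cliff n) (r : ℝ) (v : Fin n → ℝ) : c.E (r • v) = r • c.E v := by
  unfold Cliff.E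
  rw [Finset.smul_sum]
  refine Finset.sum_congr rfl fun i _ => ?_
  rw [smul_smul]
  simp

lemma E_add {n : ℕ} (c : Cliff n) (v w : Fin n → ℝ) : c.E (v + w) = c.E v + c.E w := by
  unfold Cliff.E
  rw [← Finset.sum_add_distrib]
  refine Finset.sum_congr rfl fun i _ => ?_
  rw [← add_smul]
  simp

lemma E_single {n : ℕ} (c : Cliff (n + 1)) : c.E (Pi.single 0 1) = c.e 0 := by
  unfold Cliff.E
  rw [Finset.sum_eq_single 0]
  · simp
  · intro i _ hi
    simp [hi]
  · simp

section ring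
variable {A : Type*} [Ring A] {e x ρ : A}

lemma conj_left (hx : e * x = -(x * e)) : e * (x * ρ) * e = -(x * (e * ρ * e)) := by
  calc e * (x * ρ) * e = (e * x) * ρ * e := by noncomm_ring
    _ = (-(x * e)) * ρ * e := by rw [hx]
    _ = _ := by noncomm_ring

lemma conj_right (hx : e * x = -(x * e)) : e * (ρ * x) * e = -((e * ρ * e) * x) := by
  have hx' : x * e = -(e * x) := by rw [hx, neg_neg]
  calc e * (ρ * x) * e = e * ρ * (x * e) := by noncomm_ring
    _ = e * ρ * (-(e * x)) := by rw [hx']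
    _ = _ := by noncomm_ring

end ring

lemma sm_conj {n : ℕ} (e z : Mat n) (r : ℝ) : e * (r • z) * e = r • (e * z * e) := by
  rw [Matrix.mul_smul, Matrix.smul_mul]

theorem t_deph (ha : S_alg) : S_deph := by
  intro n c a nu nu' D ρ h1 h2
  set e := c.e 0 with he
  have hee : e * e = 1 := c.e_sq 0
  have hEs : c.E (Pi.single 0 1) = e := E_single c
  have haE : ∀ j, e * c.E (D.a' j) = -(c.E (D.a' j) * e) := by
    intro j
    have h := (ha (n + 1) c (Pi.single 0 1) (D.a' j)).1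
    rw [hEs] at h
    have h0 : ∑ i, (Pi.single 0 1 : Fin (n + 1) → ℝ) i * D.a' j i = 0 := by
      rw [Finset.sum_eq_single 0]
      · rw [D.a'_zero j, mul_zero]
      · intro i _ hi
        simp [hi]
      · simp
    rw [h0, mul_zero, zero_smul] at h
    exact eq_neg_of_add_eq_zero_left h
  have haF : ∀ v, e * c.F v = -(c.F v * e) := by
    intro v
    have h := (ha (n + 1) c (Pi.single 0 1) v).2.2.1
    rw [hEs] at h
    exact eq_neg_of_add_eq_zero_left h
  have hc1 : e * (e * ρ + ρ * e) * e = ρ * e + e * ρ := by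
    calc e * (e * ρ + ρ * e) * e = (e * e) * (ρ * e) + e * ρ * (e * e) := by noncomm_ring
      _ = _ := by rw [hee]; noncomm_ring
  refine ⟨fun j => ?_, fun j => ?_, ?_, ?_⟩
  · have k1 := h1 (D.a' j)
    rw [D.Ba j, F_smul] at k1
    have k2 : e * (c.E (D.a' j) * ρ - ρ * c.E (D.a' j)) * e =
        e * (nu' j • c.F (D.b' j) * ρ + ρ * nu' j • c.F (D.b' j)) * e := by rw [k1]
    rw [Matrix.smul_mul, Matrix.mul_smul, ← smul_add, sm_conj, mul_sub, sub_mul,
      conj_left (haE j), conj_right (haE j), mul_add, add_mul, conj_left (haF _),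
      conj_right (haF _)] at k2
    rw [Matrix.smul_mul, Matrix.mul_smul, ← smul_add] at k1
    calc c.E (D.a' j) * (ρ + e * ρ * e) - (ρ + e * ρ * e) * c.E (D.a' j)
        = (c.E (D.a' j) * ρ - ρ * c.E (D.a' j)) -
          (-(c.E (D.a' j) * (e * ρ * e)) - -(e * ρ * e * c.E (D.a' j))) := by noncomm_ring
      _ = nu' j • (c.F (D.b' j) * ρ + ρ * c.F (D.b' j)) -
          nu' j • (-(c.F (D.b' j) * (e * ρ * e)) + -(e * ρ * e * c.F (D.b' j))) := by
          rw [k1, k2]
      _ = nu' j • (c.F (D.b' j) * (ρ + e * ρ * e) + (ρ + e * ρ * e) * c.F (D.b' j)) := by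
          rw [← smul_sub]
          congr 1
          noncomm_ring
  · have k1 := h2 (D.b' j)
    rw [D.Bb j, E_add, E_smul, E_smul, hEs] at k1
    have k1' : c.F (D.b' j) * ρ - ρ * c.F (D.b' j) =
        nu' j • (c.E (D.a' j) * ρ + ρ * c.E (D.a' j)) + D.kap j • (e * ρ + ρ * e) := by
      rw [k1, add_mul, mul_add, Matrix.smul_mul, Matrix.smul_mul, Matrix.mul_smul,
        Matrix.mul_smul, smul_add, smul_add]
      abel
    have k2 : e * (c.F (D.b' j) * ρ - ρ * c.F (D.b' j)) * e =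
        e * (nu' j • (c.E (D.a' j) * ρ + ρ * c.E (D.a' j)) + D.kap j • (e * ρ + ρ * e)) * e := by
      rw [k1']
    rw [mul_sub, sub_mul, conj_left (haF _), conj_right (haF _), mul_add e (nu' j • _), add_mul,
      sm_conj, sm_conj, hc1, mul_add e (c.E (D.a' j) * ρ), add_mul, conj_left (haE j),
      conj_right (haE j)] at k2
    calc c.F (D.b' j) * (ρ + e * ρ * e) - (ρ + e * ρ * e) * c.F (D.b' j)
        = (c.F (D.b' j) * ρ - ρ * c.F (D.b' j)) -
          (-(c.F (D.b' j) * (e * ρ * e)) - -(e * ρ * e * c.F (D.b' j))) := by noncomm_ring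
      _ = (nu' j • (c.E (D.a' j) * ρ + ρ * c.E (D.a' j)) + D.kap j • (e * ρ + ρ * e)) -
          (nu' j • (-(c.E (D.a' j) * (e * ρ * e)) + -(e * ρ * e * c.E (D.a' j))) +
            D.kap j • (ρ * e + e * ρ)) := by rw [k1', k2]
      _ = nu' j • ((c.E (D.a' j) * ρ + ρ * c.E (D.a' j)) -
            (-(c.E (D.a' j) * (e * ρ * e)) + -(e * ρ * e * c.E (D.a' j)))) := by
          rw [smul_sub, add_comm (ρ * e) (e * ρ)]
          abel
      _ = nu' j • (c.E (D.a' j) * (ρ + e * ρ * e) + (ρ + e * ρ * e) * c.E (D.a' j)) := by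
          congr 1
          noncomm_ring
  · have k1 := h2 D.b0
    rw [D.B0, E_smul, hEs, Matrix.smul_mul, Matrix.mul_smul, ← smul_add] at k1
    have k2 : e * (c.F D.b0 * ρ - ρ * c.F D.b0) * e = e * (D.gam • (e * ρ + ρ * e)) * e := by
      rw [k1]
    rw [mul_sub, sub_mul, conj_left (haF _), conj_right (haF _), sm_conj, hc1] at k2
    have k3 : c.F D.b0 * (ρ + e * ρ * e) - (ρ + e * ρ * e) * c.F D.b0 = 0 := by
      calc c.F D.b0 * (ρ + e * ρ * e) - (ρ + e * ρ * e) * c.F D.b0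
          = (c.F D.b0 * ρ - ρ * c.F D.b0) -
            (-(c.F D.b0 * (e * ρ * e)) - -(e * ρ * e * c.F D.b0)) := by noncomm_ring
        _ = D.gam • (e * ρ + ρ * e) - D.gam • (ρ * e + e * ρ) := by rw [k1, k2]
        _ = 0 := by rw [add_comm (ρ * e), sub_self]
    exact sub_eq_zero.1 k3
  · calc e * (ρ + e * ρ * e) = e * ρ + (e * e) * ρ * e := by noncomm_ring
      _ = ρ * e + e * ρ * (e * e) := by rw [hee]; noncomm_ring
      _ = (ρ + e * ρ * e) * e := by noncomm_ring

end Pool.Agent.W800.FB.Deph
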