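import Pool.Agent.W483.FB.Stm

/-!
# FB-12: linear algebra of the compression
-/

open Finset Matrix

namespace Pool.Agent.W800.FB.Lin

open Pool.Agent.W483.FB

variable {n : ℕ}

lemma orth_mul {m : ℕ} {a : Fin m → Fin m → ℝ} (ha : Orth a) :
    (Matrix.of a) * (Matrix.of a)ᵀ = 1 := by
  ext i j
  rw [Matrix.mul_apply, Matrix.one_apply]
  exact ha i j

/-- the symmetric matrix with eigenvectors `a` and eigenvalues `y` -/
noncomputable def S {m : ℕ} (a : Fin m → Fin m → ℝ) (y : Fin m → ℝ) : Matrix (Fin m) (Fin m) ℝ :=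
  (Matrix.of a)ᵀ * diagonal y * Matrix.of a

lemma S_apply {m : ℕ} (a : Fin m → Fin m → ℝ) (y : Fin m → ℝ) (i l : Fin m) :
    S a y i l = ∑ k, y k * a k i * a k l := by
  unfold S
  rw [Matrix.mul_apply]
  refine Finset.sum_congr rfl fun k _ => ?_
  rw [Matrix.mul_diagonal]
  simp only [transpose_apply, of_apply]
  ring

lemma S_tr {m : ℕ} (a : Fin m → Fin m → ℝ) (y : Fin m → ℝ) : (S a y)ᵀ = S a y := by
  unfold S
  rw [transpose_mul, transpose_mul, diagonal_transpose, transpose_transpose, Matrix.mul_assoc]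

lemma S_mul {m : ℕ} {a : Fin m → Fin m → ℝ} (ha : Orth a) (y z : Fin m → ℝ) :
    S a y * S a z = S a (fun k => y k * z k) := by
  unfold S
  calc (Matrix.of a)ᵀ * diagonal y * Matrix.of a * ((Matrix.of a)ᵀ * diagonal z * Matrix.of a)
      = (Matrix.of a)ᵀ * diagonal y * (Matrix.of a * (Matrix.of a)ᵀ) * diagonal z * Matrix.of a := by
        simp only [Matrix.mul_assoc]
    _ = (Matrix.of a)ᵀ * (diagonal y * diagonal z) * Matrix.of a := by
        rw [orth_mul ha, Matrix.mul_one]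
        simp only [Matrix.mul_assoc]
    _ = _ := by rw [diagonal_mul_diagonal]

lemma S_one {m : ℕ} {a : Fin m → Fin m → ℝ} (ha : Orth a) : S a (fun _ => 1) = 1 := by
  unfold S
  rw [diagonal_one, Matrix.mul_one]
  exact mul_eq_one_comm.1 (orth_mul ha)

lemma S_sub {m : ℕ} (a : Fin m → Fin m → ℝ) (y z : Fin m → ℝ) :
    S a (fun k => y k - z k) = S a y - S a z := by
  ext i l
  rw [Matrix.sub_apply, S_apply, S_apply, S_apply, ← Finset.sum_sub_distrib]
  refine Finset.sum_congr rfl fun k _ => ?_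
  ring

lemma Bop_eq {m : ℕ} (a : Fin m → Fin m → ℝ) (nu v : Fin m → ℝ) :
    Bop a nu v = (S a nu).mulVec v := by
  funext i
  unfold Bop mulVec dotProduct
  simp only [S_apply, Finset.sum_mul, Finset.mul_sum]
  rw [Finset.sum_comm]
  refine Finset.sum_congr rfl fun k _ => Finset.sum_congr rfl fun l _ => ?_
  ring

lemma S_quad {m : ℕ} (a : Fin m → Fin m → ℝ) (y v : Fin m → ℝ) :
    v ⬝ᵥ (S a y).mulVec v = ∑ k, y k * (a k ⬝ᵥ v) ^ 2 := by
  simp only [mulVec, dotProduct, S_apply, Finset.sum_mul, Finset.mul_sum, pow_two]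
  rw [Finset.sum_congr rfl fun i _ => Finset.sum_comm, Finset.sum_comm]
  refine Finset.sum_congr rfl fun k _ => ?_
  rw [Finset.sum_comm]
  refine Finset.sum_congr rfl fun l _ => Finset.sum_congr rfl fun j _ => ?_
  ring

lemma sym_dot {m : ℕ} {M : Matrix (Fin m) (Fin m) ℝ} (hM : Mᵀ = M) (v w : Fin m → ℝ) :
    M.mulVec v ⬝ᵥ w = v ⬝ᵥ M.mulVec w := by
  rw [dotProduct_mulVec, ← mulVec_transpose, hM]

theorem t_lin : S_lin := by
  intro n a x α x' ha hα hx0 hx1 hX
  set nu : Fin (n + 1) → ℝ := fun j => √(1 - x j) with hnu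
  have hnu2 : ∀ j, nu j * nu j = 1 - x j := fun j =>
    Real.mul_self_sqrt (by have := hx1 j; linarith)
  have hnu0 : ∀ j, 0 < nu j := fun j => Real.sqrt_pos.2 (by have := hx1 j; linarith)
  set M := S a nu with hM
  set X := S a x with hXd
  have hMM : M * M = 1 - X := by
    rw [hM, S_mul ha, hXd, ← S_one ha, ← S_sub]
    congr 1
    funext k
    exact hnu2 k
  set a' : Fin n → Fin (n + 1) → ℝ := fun j => Fin.cons 0 (α j) with ha'
  have ha'0 : ∀ j, a' j 0 = 0 := fun j => rfl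
  have ha's : ∀ j l, a' j (Fin.succ l) = α j l := fun j l => rfl
  have haa : ∀ i j, a' i ⬝ᵥ a' j = if i = j then 1 else 0 := by
    intro i j
    unfold dotProduct
    rw [Fin.sum_univ_succ, ha'0, zero_mul, zero_add]
    exact hα i j
  -- the action of X on a'
  have hXa : ∀ j l, X.mulVec (a' j) (Fin.succ l) = x' j * α j l := by
    intro j l
    unfold mulVec dotProduct
    rw [Fin.sum_univ_succ, ha'0, mul_zero, zero_add]
    simp only [ha's]
    have e1 : ∀ q : Fin n, X l.succ q.succ = ∑ k, x' k * α k l * α k q := by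
      intro q
      rw [hXd, S_apply]
      exact hX l q
    simp only [e1]
    have e2 : ∑ q, (∑ k, x' k * α k l * α k q) * α j q =
        ∑ k, x' k * α k l * ∑ q, α k q * α j q := by
      simp only [Finset.sum_mul, Finset.mul_sum]
      rw [Finset.sum_comm]
      refine Finset.sum_congr rfl fun k _ => Finset.sum_congr rfl fun q _ => ?_
      ring
    rw [e2, Finset.sum_eq_single j]
    · rw [hα j j, if_pos rfl, mul_one]
    · intro k _ hk
      rw [hα k j, if_neg hk, mul_zero]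
    · simp
  have hXv : ∀ j, X.mulVec (a' j) = x' j • a' j + (X.mulVec (a' j) 0) • Pi.single 0 1 := by
    intro j
    funext l
    refine Fin.cases ?_ (fun l => ?_) l
    · simp [ha'0]
    · rw [hXa j l]
      simp [ha's]
  have hXq : ∀ i j, a' i ⬝ᵥ X.mulVec (a' j) = if i = j then x' j else 0 := by
    intro i j
    rw [hXv j, dotProduct_add, dotProduct_smul, dotProduct_smul, haa]
    have : a' i ⬝ᵥ Pi.single 0 1 = 0 := by
      rw [dotProduct_single, ha'0, zero_mul]
    rw [this]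
    by_cases hij : i = j
    · simp [hij]
    · simp [hij]
  have hx'1 : ∀ j, x' j < 1 := by
    intro j
    have h1 : x' j = ∑ k, x k * (a k ⬝ᵥ a' j) ^ 2 := by
      rw [← S_quad, ← hXd, hXq, if_pos rfl]
    have h2 : ∑ k, (a k ⬝ᵥ a' j) ^ 2 = 1 := by
      have := S_quad a (fun _ => 1) (a' j)
      rw [S_one ha, one_mulVec, haa, if_pos rfl] at this
      rw [this]
      refine Finset.sum_congr rfl fun k _ => ?_
      ring
    have h3 : ∃ k, a k ⬝ᵥ a' j ≠ 0 := by
      by_contra hc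
      push Not at hc
      rw [Finset.sum_eq_zero (fun k _ => by rw [hc k]; simp)] at h2
      exact zero_ne_one h2
    obtain ⟨k, hk⟩ := h3
    rw [h1, ← h2]
    refine Finset.sum_lt_sum (fun i _ => ?_) ⟨k, Finset.mem_univ k, ?_⟩
    · have := sq_nonneg (a i ⬝ᵥ a' j)
      have := hx1 i
      nlinarith
    · have h4 : 0 < (a k ⬝ᵥ a' j) ^ 2 := by positivity
      have := hx1 k
      nlinarith
  set nu' : Fin n → ℝ := fun j => √(1 - x' j) with hnu'
  have hnu'2 : ∀ j, nu' j * nu' j = 1 - x' j := fun j =>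
    Real.mul_self_sqrt (by have := hx'1 j; linarith)
  have hnu'0 : ∀ j, 0 < nu' j := fun j => Real.sqrt_pos.2 (by have := hx'1 j; linarith)
  have hMs : Mᵀ = M := S_tr a nu
  -- the vector v0
  set v0 : Fin (n + 1) → ℝ := (S a (fun k => (nu k)⁻¹)).mulVec (Pi.single 0 1) with hv0
  have hMv0 : M.mulVec v0 = Pi.single 0 1 := by
    rw [hv0, mulVec_mulVec, hM, S_mul ha]
    have : (fun k => nu k * (nu k)⁻¹) = fun _ => (1 : ℝ) := by
      funext k
      exact mul_inv_cancel₀ (hnu0 k).ne'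
    rw [this, S_one ha, one_mulVec]
  have hv0pos : 0 < v0 ⬝ᵥ v0 := by
    have hnn : 0 ≤ v0 ⬝ᵥ v0 := Finset.sum_nonneg fun i _ => mul_self_nonneg _
    rcases hnn.lt_or_eq with h | h
    · exact h
    · exfalso
      have h0 : v0 = 0 := dotProduct_self_eq_zero.1 h.symm
      rw [h0, mulVec_zero] at hMv0
      have := congrFun hMv0 0
      simp at this
  set s := √(v0 ⬝ᵥ v0) with hs
  have hspos : 0 < s := Real.sqrt_pos.2 hv0pos
  have hss : s * s = v0 ⬝ᵥ v0 := Real.mul_self_sqrt hv0pos.le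
  refine ⟨{
    a' := a'
    b' := fun j => (nu' j)⁻¹ • M.mulVec (a' j)
    b0 := s⁻¹ • v0
    kap := fun j => -(nu' j)⁻¹ * X.mulVec (a' j) 0
    gam := s⁻¹
    a'_orth := haa
    a'_zero := ha'0
    b'_orth := ?_
    b0_unit := ?_
    b0_orth := ?_
    gam_ne := inv_ne_zero hspos.ne'
    Ba := ?_
    Bb := ?_
    B0 := ?_ }⟩
  · intro i j
    show ((nu' i)⁻¹ • M.mulVec (a' i)) ⬝ᵥ ((nu' j)⁻¹ • M.mulVec (a' j)) = _
    rw [smul_dotProduct, dotProduct_smul, sym_dot hMs, mulVec_mulVec, hMM, sub_mulVec, one_mulVec,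
      dotProduct_sub, haa, hXq, smul_eq_mul, smul_eq_mul]
    by_cases hij : i = j
    · subst hij
      rw [if_pos rfl, if_pos rfl, ← hnu'2 i]
      have := (hnu'0 i).ne'
      field_simp
    · rw [if_neg hij, if_neg hij]
      simp [hij]
  · show (s⁻¹ • v0) ⬝ᵥ (s⁻¹ • v0) = 1
    rw [smul_dotProduct, dotProduct_smul, ← hss, smul_eq_mul, smul_eq_mul]
    have := hspos.ne'
    field_simp
  · intro j
    show (s⁻¹ • v0) ⬝ᵥ ((nu' j)⁻¹ • M.mulVec (a' j)) = 0
    rw [smul_dotProduct, dotProduct_smul, ← sym_dot hMs, hMv0, single_dotProduct, ha'0]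
    simp
  · intro j
    show Bop a nu (a' j) = nu' j • ((nu' j)⁻¹ • M.mulVec (a' j))
    rw [Bop_eq, smul_smul, mul_inv_cancel₀ (hnu'0 j).ne', one_smul]
  · intro j
    show Bop a nu ((nu' j)⁻¹ • M.mulVec (a' j)) =
      nu' j • a' j + (-(nu' j)⁻¹ * X.mulVec (a' j) 0) • Pi.single 0 1
    rw [Bop_eq, ← hM, mulVec_smul, mulVec_mulVec, hMM, sub_mulVec, one_mulVec]
    have h1 := hXv j
    set t := X.mulVec (a' j) 0 with ht
    rw [h1]
    funext l
    simp only [Pi.smul_apply, Pi.sub_apply, Pi.add_apply, smul_eq_mul]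
    have h2 := hnu'2 j
    have h3 := (hnu'0 j).ne'
    have h4 : (nu' j)⁻¹ * (1 - x' j) = nu' j := by
      rw [← h2]; field_simp
    linear_combination (a' j l) * h4
  · show Bop a nu (s⁻¹ • v0) = s⁻¹ • Pi.single 0 1
    rw [Bop_eq, ← hM, mulVec_smul, hMv0]

end Pool.Agent.W800.FB.Lin
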